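import Pool.Agent.Helper45.RT.Stmts3

/-!
Row FARK of project RTwo (MP_47dd75_co).
-/

set_option autoImplicit false

namespace RTwo

theorem sel_iff_fark (b x y : Bool) : sel b x y = true ↔ (b = true ∧ x = true) ∨ (b = false ∧ y = true) := by
  cases b <;> simp [sel]

theorem and3_iff_fark (a b c : Bool) : and3 a b c = true ↔ a = true ∧ b = true ∧ c = true := by
  cases a <;> cases b <;> cases c <;> simp [and3, sel]

theorem fark_succ (C : IC) (m F f s P N st : ℕ) :
    fark C m F (f + 1) s P N st =
      sel (Nat.beq s 0)
        (sel (Nat.ble P N)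
          (sel (Nat.ble (Nat.succ (Nat.sub N P)) 4722366482869645213696)
            (Nat.ble 1 (Nat.add st (Nat.sub N P))) false) false)
        (and3 (and3 (Nat.ble (Nat.succ (Nat.mod (Nat.shiftRight s 5) 16)) (Nat.mod (Nat.shiftRight s 9) 16))
              (Nat.ble (Nat.succ (Nat.mod (Nat.shiftRight s 9) 16)) (Nat.mod (Nat.shiftRight s 13) 16))
              (Nat.ble (Nat.succ (Nat.mod (Nat.shiftRight s 13) 16)) m))
            (and3 (Nat.ble (Nat.succ (Nat.mod (Nat.shiftRight s 19) 16)) (Nat.mod (Nat.shiftRight s 23) 16))
              (Nat.ble (Nat.succ (Nat.mod (Nat.shiftRight s 23) 16)) (Nat.mod (Nat.shiftRight s 27) 16))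
              (Nat.ble (Nat.succ (Nat.mod (Nat.shiftRight s 27) 16)) m))
            (row C F (Nat.mod s 32) (Nat.mod (Nat.shiftRight s 5) 16) (Nat.mod (Nat.shiftRight s 9) 16)
              (Nat.mod (Nat.shiftRight s 13) 16) (Nat.mod (Nat.shiftRight s 17) 4)
              (Nat.mod (Nat.shiftRight s 19) 16) (Nat.mod (Nat.shiftRight s 23) 16)
              (Nat.mod (Nat.shiftRight s 27) 16)
              (Nat.mod (Nat.shiftRight s 31) 4) (Nat.mod (Nat.shiftRight s 33) 2)
              (Nat.mod (Nat.shiftRight s 34) 2)
              (fun x y z => fark C m F f (Nat.shiftRight s 80)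
                (Nat.add P (Nat.mul x (Nat.mod (Nat.shiftRight s 35) 35184372088832)))
                (Nat.add N (Nat.mul y (Nat.mod (Nat.shiftRight s 35) 35184372088832)))
                (Nat.add st (Nat.mul z (Nat.mod (Nat.shiftRight s 35) 35184372088832)))))) := rfl

theorem st_FARK (hROW : ST_ROW) (hPK : ST_PK) (hPKC : ST_PKC) : ST_FARK := by
  intro C m F p a b α β φ hC hS s hs
  obtain ⟨hadd, hmul, hmono, hcon, -, -, -⟩ := hPK C.D α β φ
  have key : ∀ (f : ℕ) (s P N st B : ℕ) (x y : ℝ), B + f * (35184372088832 * 1000000) < 2 ^ 95 →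
      Pk C.D α β φ B P x → Pk C.D α β φ B N y → y ≤ x → (0 < st → y < x) →
      fark C m F f s P N st = true → False := by
    intro f
    induction f with
    | zero =>
      intro s P N st B x y _ _ _ _ _ h
      exact absurd h (by simp [fark])
    | succ f ih =>
      intro s P N st B x y hB hP hN hyx hst h
      rw [fark_succ, sel_iff_fark] at h
      rcases h with ⟨_, h⟩ | ⟨_, h⟩
      · -- final check
        rw [sel_iff_fark] at h
        rcases h with ⟨h1, h⟩ | ⟨_, h⟩
        swap
        · exact absurd h (by simp)
        rw [sel_iff_fark] at h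
        rcases h with ⟨h2, h⟩ | ⟨_, h⟩
        swap
        · exact absurd h (by simp)
        rw [Nat.ble_eq] at h1 h2 h
        have h2' : N - P < 2 ^ 72 := by
          have : Nat.succ (N - P) ≤ 4722366482869645213696 := h2
          omega
        have h3 : 1 ≤ st + (N - P) := h
        have hD : 0 < C.D := hC.ok.D_pos
        have e := hPKC C.D α β φ B P N x y hD (by omega) hP hN h1 h2'
        have hDr : (0 : ℝ) < (C.D : ℝ) := by exact_mod_cast hD
        by_cases h0 : N - P = 0
        · have h4 : 0 < st := by omega
          have h5 := hst h4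
          rw [h0] at e
          simp at e
          linarith
        · have h4 : 0 < N - P := by omega
          have h5 : (0 : ℝ) < ((N - P : ℕ) : ℝ) := by exact_mod_cast h4
          have h6 : (0 : ℝ) < ((N - P : ℕ) : ℝ) / (C.D : ℝ) := div_pos h5 hDr
          linarith
      · rw [and3_iff_fark, and3_iff_fark, and3_iff_fark] at h
        obtain ⟨⟨h1, h2, h3⟩, ⟨h4, h5, h6⟩, h7⟩ := h
        rw [Nat.ble_eq] at h1 h2 h3 h4 h5 h6
        have hl : Nat.mod (Nat.shiftRight s 35) 35184372088832 < 35184372088832 :=
          Nat.mod_lt _ (by norm_num)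
        obtain ⟨X, Y, z, x', y', hK, hX, hY, hle, hz, hlt⟩ :=
          hROW C m F p a b α β φ hC hS _ _ _ _ _ _ _ _ _ _ _ _ h1 h2 h3 h4 h5 h6
            (Nat.mod_lt _ (by norm_num)) (Nat.mod_lt _ (by norm_num)) (Nat.mod_lt _ (by norm_num))
            (Nat.mod_lt _ (by norm_num)) h7
        generalize Nat.mod (Nat.shiftRight s 35) 35184372088832 = l at hl hK
        have hX' := hmul _ _ _ l hX
        have hY' := hmul _ _ _ l hY
        have hX2 := hadd _ _ _ _ _ _ hP hX'
        have hY2 := hadd _ _ _ _ _ _ hN hY'
        have hlr : (0 : ℝ) ≤ (l : ℝ) := Nat.cast_nonneg l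
        refine ih (Nat.shiftRight s 80) (P + l * X) (N + l * Y) (st + l * z)
          (B + l * 1000000) (x + l * x') (y + l * y') ?_ hX2 hY2 ?_ ?_ ?_
        · have : l * 1000000 ≤ 35184372088832 * 1000000 := Nat.mul_le_mul_right _ hl.le
          have e2 : (f + 1) * (35184372088832 * 1000000) =
            f * (35184372088832 * 1000000) + 35184372088832 * 1000000 := by ring
          omega
        · have := mul_le_mul_of_nonneg_left hle hlr
          linarith
        · intro h8
          have := mul_le_mul_of_nonneg_left hle hlr
          by_cases h9 : 0 < st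
          · have := hst h9
            linarith
          · have h10 : 0 < l * z := by omega
            have h11 : 0 < l := Nat.pos_of_mul_pos_right h10 |> fun _ => by
              rcases Nat.eq_zero_or_pos l with h0 | h0
              · rw [h0] at h10; simp at h10
              · exact h0
            have h12 : 0 < z := by
              rcases Nat.eq_zero_or_pos z with h0 | h0
              · rw [h0] at h10; simp at h10
              · exact h0
            have h13 : z = 1 := by omega
            have h14 := hlt h13
            have h15 : (0 : ℝ) < (l : ℝ) := by exact_mod_cast h11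
            have := mul_lt_mul_of_pos_left h14 h15
            linarith
        · have e1 : P + l * X = Nat.add P (Nat.mul X l) := by
            show P + l * X = P + X * l
            rw [Nat.mul_comm]
          have e2 : N + l * Y = Nat.add N (Nat.mul Y l) := by
            show N + l * Y = N + Y * l
            rw [Nat.mul_comm]
          have e3 : st + l * z = Nat.add st (Nat.mul z l) := by
            show st + l * z = st + z * l
            rw [Nat.mul_comm]
          rw [e1, e2, e3]
          exact hK
  refine key 100 s 0 0 0 0 (((0 : ℕ) : ℝ) / C.D) (((0 : ℕ) : ℝ) / C.D) (by norm_num) ?_ ?_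
    le_rfl (fun h => absurd h (lt_irrefl 0)) hs
  · exact hcon 0
  · exact hcon 0

end RTwo
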