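import Pool.Agent.Helper54.RTwo.SinB

/-!
Row IV3 of project RTwo (MP_47dd75_co).
-/

set_option autoImplicit false

namespace RTwo

theorem st_IV3 : ST_IV3 := by
  intro a b ha hab h1 h2
  have hb : 0 < b := ha.trans hab
  have hK : IOK K3 a b := by
    refine ⟨by decide, ?_, ?_, ?_, ?_, ?_, ?_, ?_, ?_, ?_⟩
    · have h := sinb_lo (605/7200) (605/7200*3.141593) (11/42) (a / (2 * b)) (by norm_num) (by norm_num)
        le_rfl (by norm_num) (by norm_num) (by
          rw [div_le_div_iff₀ (by positivity) (by positivity)]
          linarith)
      show ((605 : ℕ) : ℝ) / ((3600 : ℕ) : ℝ) * Real.pi < _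
      push_cast
      linarith
    · have h := sinb_up (761/7200) (761/7200*3.141592) (13/40) (a / (2 * b)) (by norm_num) (by norm_num)
        le_rfl (by norm_num) (by norm_num) (by
          rw [div_le_div_iff₀ (by positivity) (by positivity)]
          linarith)
      show _ < ((761 : ℕ) : ℝ) / ((3600 : ℕ) : ℝ) * Real.pi
      push_cast
      linarith
    · have h := sinb_lo (2009/7200) (2009/7200*3.141593) (10/13) (b / (2 * a)) (by norm_num) (by norm_num)
        le_rfl (by norm_num) (by norm_num) (by
          rw [div_le_div_iff₀ (by positivity) (by positivity)]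
          linarith)
      show ((2009 : ℕ) : ℝ) / ((3600 : ℕ) : ℝ) * Real.pi < _
      push_cast
      linarith
    · intro _
      have h := sinb_up (2909/7200) (2909/7200*3.141592) (21/22) (b / (2 * a)) (by norm_num) (by norm_num)
        le_rfl (by norm_num) (by norm_num) (by
          rw [div_le_div_iff₀ (by positivity) (by positivity)]
          linarith)
      show _ < ((2909 : ℕ) : ℝ) / ((3600 : ℕ) : ℝ) * Real.pi
      push_cast
      linarith
    · intro h
      exact absurd h (by decide)
    · intro _
      exact ⟨by decide, by decide⟩
    · intro _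
      show a * ((20 : ℕ) : ℝ) ≤ ((13 : ℕ) : ℝ) * b
      push_cast
      linarith
    · intro _
      have h := sinb_up (813/3600) (813/3600*3.141592) (13/20) (a / b) (by norm_num) (by norm_num)
        le_rfl (by norm_num) (by norm_num) (by
          rw [div_le_div_iff₀ (by positivity) (by positivity)]
          linarith)
      show _ < ((813 : ℕ) : ℝ) / ((3600 : ℕ) : ℝ) * Real.pi
      push_cast
      linarith
    · intro _
      refine ⟨by decide, ?_⟩
      have h := sinb_lo (7/40) (7/40*3.141593) (11/21) (a / b) (by norm_num) (by norm_num)
        le_rfl (by norm_num) (by norm_num) (by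
          rw [div_le_div_iff₀ (by positivity) (by positivity)]
          linarith)
      show ((7 : ℕ) : ℝ) / ((20 : ℕ) : ℝ) < _
      rw [div_mul_eq_mul_div, lt_div_iff₀ Real.pi_pos]
      push_cast
      linarith
  exact hK

end RTwo
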