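import Pool.Agent.Helper54.RTwo.SinB

/-!
Row IVP of project RTwo (MP_47dd75_co).
-/

set_option autoImplicit false

namespace RTwo

theorem st_IVP : ST_IVP := by
  intro a b ha hab
  have hb : 0 < b := ha.trans hab
  have hK : IOK KP a b := by
    refine ⟨by decide, ?_, ?_, ?_, ?_, ?_, ?_, ?_, ?_, ?_⟩
    · have h := sinb_pos (a / (2 * b)) (by positivity)
      show ((0 : ℕ) : ℝ) / ((3600 : ℕ) : ℝ) * Real.pi < _
      push_cast
      linarith
    · have h := sinb_lt_half (a / (2 * b)) (by
        rw [div_lt_iff₀ (by positivity)]
        linarith)
      show _ < ((1200 : ℕ) : ℝ) / ((3600 : ℕ) : ℝ) * Real.pi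
      push_cast
      linarith
    · have h := sinb_half_lt (b / (2 * a)) (by
        rw [lt_div_iff₀ (by positivity)]
        linarith)
      show ((1200 : ℕ) : ℝ) / ((3600 : ℕ) : ℝ) * Real.pi < _
      push_cast
      linarith
    · intro h
      exact absurd h (by decide)
    · intro h
      exact absurd h (by decide)
    · intro h
      exact absurd h (by decide)
    · intro h
      exact absurd h (by decide)
    · intro h
      exact absurd h (by decide)
    · intro h
      exact absurd h (by decide)
  exact hK

end RTwo
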