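import Pool.Agent.Helper45.RT.Stmts3

/-!
Row ENT of project RTwo (MP_47dd75_co).
-/

set_option autoImplicit false

namespace RTwo

theorem ent_sel_iff (b x y : Bool) :
    sel b x y = true ↔ (b = true ∧ x = true) ∨ (b = false ∧ y = true) := by
  cases b <;> simp [sel]

theorem ent_beq_false {a b : ℕ} : Nat.beq a b = false ↔ a ≠ b := by
  constructor
  · intro h e
    subst e
    rw [Nat.beq_refl] at h
    exact absurd h (by simp)
  · intro h
    cases hb : Nat.beq a b
    · rfl
    · exact absurd (Nat.eq_of_beq_eq_true hb) h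

theorem ent_seln_eq (b : Bool) (x y : ℕ) : seln b x y = if b = true then x else y := by
  cases b <;> rfl

theorem ent_cardS_succ (S f : ℕ) : cardS S (f + 1) = (S >>> f) % 2 + cardS S f := rfl

theorem ent_vlist_succ (n s d S f acc : ℕ) :
    vlist n s d S (f + 1) acc =
      vlist n s d S f (seln (Nat.beq ((S >>> f) % 2) 1)
        (16 * acc + (s + seln (Nat.beq d 0) f (n - f)) % n) acc) := rfl

theorem ent_nib_eq (G i : ℕ) : nib G i = G / 16 ^ i % 16 := by
  show (G >>> (4 * i)) % 16 = _
  rw [Nat.shiftRight_eq_div_pow, pow_mul]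
  rfl

theorem ent_nib_zero (acc x : ℕ) (hx : x < 16) : nib (16 * acc + x) 0 = x := by
  rw [ent_nib_eq]
  omega

theorem ent_nib_succ (acc x i : ℕ) (hx : x < 16) : nib (16 * acc + x) (1 + i) = nib acc i := by
  rw [ent_nib_eq, ent_nib_eq, pow_add, pow_one, ← Nat.div_div_eq_div_mul]
  have : (16 * acc + x) / 16 = acc := by omega
  rw [this]

theorem ent_vlist_spec (n s d S : ℕ) (hn : 0 < n) (hn2 : n ≤ 10) :
    ∀ f acc, ∃ o : ℕ → ℕ, (∀ i j, i < j → j < cardS S f → o i < o j) ∧
      (∀ i, i < cardS S f → o i < f) ∧
      (∀ i, i < cardS S f → nib (vlist n s d S f acc) i =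
        (s + if d = 0 then o i else n - o i) % n) ∧
      ∀ i, nib (vlist n s d S f acc) (cardS S f + i) = nib acc i := by
  intro f
  induction f with
  | zero =>
    intro acc
    refine ⟨fun _ => 0, ?_, ?_, ?_, ?_⟩
    · intro i j _ h
      exact absurd h (Nat.not_lt_zero _)
    · intro i h
      exact absurd h (Nat.not_lt_zero _)
    · intro i h
      exact absurd h (Nat.not_lt_zero _)
    · intro i
      show nib acc (0 + i) = _
      rw [Nat.zero_add]
  | succ f ih =>
    intro acc
    rcases Nat.mod_two_eq_zero_or_one (S >>> f) with h | h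
    · obtain ⟨o, h1, h2, h3, h4⟩ := ih acc
      have hc : cardS S (f + 1) = cardS S f := by
        rw [ent_cardS_succ, h, Nat.zero_add]
      have hv : vlist n s d S (f + 1) acc = vlist n s d S f acc := by
        rw [ent_vlist_succ, h]
        rfl
      rw [hc, hv]
      exact ⟨o, h1, fun i hi => Nat.lt_succ_of_lt (h2 i hi), h3, h4⟩
    · set x := (s + seln (Nat.beq d 0) f (n - f)) % n with hx
      have hx16 : x < 16 := by
        have := Nat.mod_lt (s + seln (Nat.beq d 0) f (n - f)) hn
        omega
      obtain ⟨o, h1, h2, h3, h4⟩ := ih (16 * acc + x)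
      have hc : cardS S (f + 1) = cardS S f + 1 := by
        rw [ent_cardS_succ, h, Nat.add_comm]
      have hv : vlist n s d S (f + 1) acc = vlist n s d S f (16 * acc + x) := by
        rw [ent_vlist_succ, h]
        rfl
      rw [hc, hv]
      refine ⟨fun i => if i < cardS S f then o i else f, ?_, ?_, ?_, ?_⟩
      · intro i j hij hj
        by_cases hj2 : j < cardS S f
        · simp only [hj2, if_true, lt_trans hij hj2]
          exact h1 i j hij hj2
        · have hi2 : i < cardS S f := by omega
          simp only [hj2, if_false, hi2, if_true]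
          exact h2 i hi2
      · intro i hi
        by_cases hi2 : i < cardS S f
        · simp only [hi2, if_true]
          exact Nat.lt_succ_of_lt (h2 i hi2)
        · simp only [hi2, if_false]
          exact Nat.lt_succ_self f
      · intro i hi
        by_cases hi2 : i < cardS S f
        · simp only [hi2, if_true]
          exact h3 i hi2
        · simp only [hi2, if_false]
          have hi3 : i = cardS S f + 0 := by omega
          rw [hi3, h4 0, ent_nib_zero _ _ hx16, hx, ent_seln_eq]
          by_cases hd : d = 0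
          · subst hd
            rfl
          · have : Nat.beq d 0 = false := by
              rw [ent_beq_false]
              exact hd
            simp [this, hd]
      · intro i
        rw [Nat.add_assoc, h4 (1 + i), ent_nib_succ _ _ _ hx16]

theorem ent_place_succ (M G f W : ℕ) :
    place M G (f + 1) W = sel (Nat.beq W 0) true
      (sel (Nat.beq (colM M (nib G (W % 16)) (nib G ((W >>> 4) % 16)))
        ((W >>> 8) % 4)) (place M G f (W >>> 10)) false) := rfl

theorem ent_place_spec (M G m : ℕ) (p : ℕ → ℂ) (a b : ℝ)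
    (h : ∀ i j, i < m → j < m → Okd (colM M (nib G i) (nib G j)) a b (dist (p i) (p j))) :
    ∀ f W, place M G f W = true → chords m p a b f W := by
  intro f
  induction f with
  | zero =>
    intro W _
    trivial
  | succ f ih =>
    intro W hW
    rw [ent_place_succ, ent_sel_iff, ent_sel_iff] at hW
    rcases hW with ⟨hW, _⟩ | ⟨_, hW | ⟨_, hW⟩⟩
    · left
      exact Nat.eq_of_beq_eq_true hW
    · right
      obtain ⟨hW1, hW2⟩ := hW
      have hW1 := Nat.eq_of_beq_eq_true hW1
      have hW3 := ih _ hW2
      rw [Nat.shiftRight_eq_div_pow] at hW3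
      rw [Nat.shiftRight_eq_div_pow, Nat.shiftRight_eq_div_pow] at hW1
      refine ⟨?_, hW3⟩
      intro hi hj
      have := h _ _ hi hj
      have e : W / 256 % 4 = colM M (nib G (W % 16)) (nib G (W / 16 % 16)) := hW1.symm
      rw [e]
      exact this
    · exact absurd hW (by simp)

theorem ent_colM_eq (M x y : ℕ) : colM M x y = if y ≤ x then dgt M x y else dgt M y x := by
  show (M >>> (seln (Nat.ble y x) (20 * x + 2 * y) (20 * y + 2 * x))) % 4 = _
  rw [Nat.shiftRight_eq_div_pow, ent_seln_eq]
  by_cases h : y ≤ x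
  · have : Nat.ble y x = true := by rw [Nat.ble_eq]; exact h
    simp only [this, if_true, h]
    rfl
  · have : Nat.ble y x ≠ true := by rw [Ne, Nat.ble_eq]; exact h
    simp only [this, h, if_false]
    rfl

theorem ent_entOK_eq (n : ℕ) (Lib : List ℕ) (M s : ℕ) :
    entOK n Lib M s = sel (Nat.beq (get Lib (s % 32768) % 16) (cardS ((s >>> 20) % 1024) n))
      (sel (Nat.beq (get Lib (s % 32768)) 0) false
        (sel (Nat.ble (Nat.succ ((s >>> 15) % 16)) n)
          (place M (vlist n ((s >>> 15) % 16) ((s >>> 19) % 2)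
            ((s >>> 20) % 1024) n 0) 20 (get Lib (s % 32768) >>> 4)) false)) false := rfl

theorem st_ENT (hRLR : ST_RLR) (hRLD : ST_RLD) : ST_ENT := by
  intro I n Lib M s hn hn2 hLib hE hRl
  rw [ent_entOK_eq, ent_sel_iff, ent_sel_iff, ent_sel_iff] at hE
  rcases hE with ⟨h1, ⟨_, h⟩ | ⟨h2, ⟨h3, h4⟩ | ⟨_, h⟩⟩⟩ | ⟨_, h⟩
  · exact absurd h (by simp)
  · have h1 := Nat.eq_of_beq_eq_true h1
    have h2 : get Lib (s % 32768) ≠ 0 := by
      rw [ent_beq_false] at h2
      exact h2
    rw [Nat.ble_eq] at h3
    have hB := hLib _ h2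
    generalize get Lib (s % 32768) = E at h1 h2 h4 hB
    have hs : (s >>> 15) % 16 < n := h3
    generalize (s >>> 15) % 16 = s0 at h3 h4 hs
    generalize (s >>> 19) % 2 = d at h4
    generalize (s >>> 20) % 1024 = S at h1 h4
    apply hB
    obtain ⟨o, ho1, ho2, ho3, -⟩ := ent_vlist_spec n s0 d S (by omega) hn2 n 0
    generalize vlist n s0 d S n 0 = G at ho3 h4
    -- the dihedral element
    obtain ⟨r, f, hrf⟩ : ∃ r f, ∀ x, x < n →
        (s0 + if d = 0 then x else n - x) % n = dsg n r f x := by
      by_cases hd : d = 0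
      · refine ⟨s0, 0, ?_⟩
        intro x _
        simp only [hd, if_true, dsg]
        rw [Nat.add_comm]
      · refine ⟨n - 1 - s0, 1, ?_⟩
        intro x hx
        simp only [hd, if_false, dsg, one_ne_zero]
        by_cases hxs : x ≤ s0
        · have e1 : s0 + (n - x) = (s0 - x) + n := by omega
          rw [e1, Nat.add_mod_right, Nat.mod_eq_of_lt (by omega : s0 - x < n),
            Nat.mod_eq_of_lt (by omega : x + (n - 1 - s0) < n)]
          omega
        · have e1 : x + (n - 1 - s0) = (x - 1 - s0) + n := by omega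
          rw [e1, Nat.add_mod_right, Nat.mod_eq_of_lt (by omega : s0 + (n - x) < n),
            Nat.mod_eq_of_lt (by omega : x - 1 - s0 < n)]
          omega
    have hR := hRLD I n r f (dgt M) (by omega) hRl
    have hR2 := hRLR I I (E % 16) n (dcol n r f (dgt M))
      (fun i j => dcol n r f (dgt M) (o i) (o j)) o hR (fun _ _ h => h)
      (fun i j hij hj => ho1 i j hij (by omega))
      (fun i hi => ho2 i (by omega)) (fun i j e _ _ _ h => h)
    obtain ⟨p, a, b, hp, ha, hab, hI, hc⟩ := hR2
    refine ⟨p, a, b, hp, ha, hab, hI, ?_⟩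
    have key : ∀ i j, i < E % 16 → j < E % 16 →
        Okd (colM M (nib G i) (nib G j)) a b (dist (p i) (p j)) := by
      intro i j hi hj
      have ei : nib G i = dsg n r f (o i) := by
        rw [ho3 i (by omega), hrf _ (ho2 i (by omega))]
      have ej : nib G j = dsg n r f (o j) := by
        rw [ho3 j (by omega), hrf _ (ho2 j (by omega))]
      rw [ent_colM_eq, ei, ej]
      split_ifs
      · exact hc i j hi hj
      · rw [dist_comm]
        exact hc j i hj hi
    have h5 := ent_place_spec M G (E % 16) p a b key 20 (E >>> 4) h4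
    rw [Nat.shiftRight_eq_div_pow] at h5
    exact h5
  · exact absurd h (by simp)
  · exact absurd h (by simp)

end RTwo
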