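import Pool.Agent.Helper54.RTwo.SinB

/-!
Row IV4 of project RTwo (MP_47dd75_co).
-/

set_option autoImplicit false

namespace RTwo

theorem st_IV4 : ST_IV4 := by
  intro a b ha hab h1 h2
  have hb : 0 < b := ha.trans hab
  have hK : IOK K4 a b := by
    refine ⟨by decide, ?_, ?_, ?_, ?_, ?_, ?_, ?_, ?_, ?_⟩
    · have h := sinb_lo (756/7200) (756/7200*3.141593) (13/40) (a / (2 * b)) (by norm_num) (by norm_num)
        le_rfl (by norm_num) (by norm_num) (by
          rw [div_le_div_iff₀ (by positivity) (by positivity)]
          linarith)
      show ((756 : ℕ) : ℝ) / ((3600 : ℕ) : ℝ) * Real.pi < _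
      push_cast
      linarith
    · have h := sinb_up (839/7200) (839/7200*3.141592) (5/14) (a / (2 * b)) (by norm_num) (by norm_num)
        le_rfl (by norm_num) (by norm_num) (by
          rw [div_le_div_iff₀ (by positivity) (by positivity)]
          linarith)
      show _ < ((839 : ℕ) : ℝ) / ((3600 : ℕ) : ℝ) * Real.pi
      push_cast
      linarith
    · have h := sinb_lo (1775/7200) (1775/7200*3.141593) (7/10) (b / (2 * a)) (by norm_num) (by norm_num)
        le_rfl (by norm_num) (by norm_num) (by
          rw [div_le_div_iff₀ (by positivity) (by positivity)]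
          linarith)
      show ((1775 : ℕ) : ℝ) / ((3600 : ℕ) : ℝ) * Real.pi < _
      push_cast
      linarith
    · intro _
      have h := sinb_up (2014/7200) (2014/7200*3.141592) (10/13) (b / (2 * a)) (by norm_num) (by norm_num)
        le_rfl (by norm_num) (by norm_num) (by
          rw [div_le_div_iff₀ (by positivity) (by positivity)]
          linarith)
      show _ < ((2014 : ℕ) : ℝ) / ((3600 : ℕ) : ℝ) * Real.pi
      push_cast
      linarith
    · intro h
      exact absurd h (by decide)
    · intro _
      exact ⟨by decide, by decide⟩
    · intro _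
      show a * ((7 : ℕ) : ℝ) ≤ ((5 : ℕ) : ℝ) * b
      push_cast
      linarith
    · intro _
      have h := sinb_up (914/3600) (914/3600*3.141592) (5/7) (a / b) (by norm_num) (by norm_num)
        le_rfl (by norm_num) (by norm_num) (by
          rw [div_le_div_iff₀ (by positivity) (by positivity)]
          linarith)
      show _ < ((914 : ℕ) : ℝ) / ((3600 : ℕ) : ℝ) * Real.pi
      push_cast
      linarith
    · intro _
      refine ⟨by decide, ?_⟩
      have h := sinb_lo (11/50) (11/50*3.141593) (13/20) (a / b) (by norm_num) (by norm_num)
        le_rfl (by norm_num) (by norm_num) (by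
          rw [div_le_div_iff₀ (by positivity) (by positivity)]
          linarith)
      show ((11 : ℕ) : ℝ) / ((25 : ℕ) : ℝ) < _
      rw [div_mul_eq_mul_div, lt_div_iff₀ Real.pi_pos]
      push_cast
      linarith
  exact hK

end RTwo
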