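import Pool.Agent.Helper54.RTwo.SinB

/-!
Row IV5 of project RTwo (MP_47dd75_co).
-/

set_option autoImplicit false

namespace RTwo

theorem st_IV5 : ST_IV5 := by
  intro a b ha hab h1
  have hb : 0 < b := ha.trans hab
  have hK : IOK K5 a b := by
    refine ⟨by decide, ?_, ?_, ?_, ?_, ?_, ?_, ?_, ?_, ?_⟩
    · have h := sinb_lo (834/7200) (834/7200*3.141593) (5/14) (a / (2 * b)) (by norm_num) (by norm_num)
        le_rfl (by norm_num) (by norm_num) (by
          rw [div_le_div_iff₀ (by positivity) (by positivity)]
          linarith)
      show ((834 : ℕ) : ℝ) / ((3600 : ℕ) : ℝ) * Real.pi < _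
      push_cast
      linarith
    · have h := sinb_lt_half (a / (2 * b)) (by
        rw [div_lt_iff₀ (by positivity)]
        linarith)
      show _ < ((1200 : ℕ) : ℝ) / ((3600 : ℕ) : ℝ) * Real.pi
      push_cast
      linarith
    · have h := sinb_half_lt (b / (2 * a)) (by
        rw [lt_div_iff₀ (by positivity)]
        linarith)
      show ((1200 : ℕ) : ℝ) / ((3600 : ℕ) : ℝ) * Real.pi < _
      push_cast
      linarith
    · intro _
      have h := sinb_up (1780/7200) (1780/7200*3.141592) (7/10) (b / (2 * a)) (by norm_num) (by norm_num)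
        le_rfl (by norm_num) (by norm_num) (by
          rw [div_le_div_iff₀ (by positivity) (by positivity)]
          linarith)
      show _ < ((1780 : ℕ) : ℝ) / ((3600 : ℕ) : ℝ) * Real.pi
      push_cast
      linarith
    · intro h
      exact absurd h (by decide)
    · intro _
      exact ⟨by decide, by decide⟩
    · intro _
      show a * ((1 : ℕ) : ℝ) ≤ ((1 : ℕ) : ℝ) * b
      push_cast
      linarith
    · intro _
      have h := sinb_lt_one (a / b) (by
        rw [div_lt_one (by positivity)]
        linarith)
      show _ < ((1800 : ℕ) : ℝ) / ((3600 : ℕ) : ℝ) * Real.pi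
      push_cast
      linarith
    · intro _
      refine ⟨by decide, ?_⟩
      have h := sinb_lo (1/4) (1/4*3.141593) (5/7) (a / b) (by norm_num) (by norm_num)
        le_rfl (by norm_num) (by norm_num) (by
          rw [div_le_div_iff₀ (by positivity) (by positivity)]
          linarith)
      show ((1 : ℕ) : ℝ) / ((2 : ℕ) : ℝ) < _
      rw [div_mul_eq_mul_div, lt_div_iff₀ Real.pi_pos]
      push_cast
      linarith
  exact hK

end RTwo
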