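import Pool.Agent.Helper45.RT.Stmts3

/-!
Bounds for the sine, used in the rows IVP, IV0, ..., IV5 of project RTwo (MP_47dd75_co).
-/

set_option autoImplicit false

namespace RTwo

open Real

theorem sinb_mono (f f' : ℝ → ℝ) (hf : ∀ x, HasDerivAt f (f' x) x) (h0 : f 0 = 0)
    (h : ∀ x, 0 ≤ x → 0 ≤ f' x) : ∀ x, 0 ≤ x → 0 ≤ f x := by
  intro x hx
  have hm : MonotoneOn f (Set.Ici 0) := by
    apply monotoneOn_of_deriv_nonneg (convex_Ici 0)
    · exact fun y _ => (hf y).continuousAt.continuousWithinAt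
    · exact fun y _ => (hf y).differentiableAt.differentiableWithinAt
    · intro y hy
      rw [interior_Ici, Set.mem_Ioi] at hy
      rw [(hf y).deriv]
      exact h y hy.le
  have := hm (Set.mem_Ici.2 le_rfl) (Set.mem_Ici.2 hx) hx
  rwa [h0] at this

theorem sinb_c2 (x : ℝ) (_ : 0 ≤ x) : 0 ≤ cos x - (1 - x ^ 2 / 2) := by
  have := one_sub_sq_div_two_le_cos (x := x)
  linarith

theorem sinb_s3 (x : ℝ) (hx : 0 ≤ x) : 0 ≤ sin x - (x - x ^ 3 / 6) := by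
  refine sinb_mono (fun x => sin x - (x - x ^ 3 / 6)) (fun x => cos x - (1 - x ^ 2 / 2)) ?_ (by simp)
    sinb_c2 x hx
  intro x
  have h := (hasDerivAt_sin x).sub ((hasDerivAt_id' x).sub ((hasDerivAt_pow 3 x).div_const 6))
  refine h.congr_deriv ?_
  norm_num
  ring

theorem sinb_c4 (x : ℝ) (hx : 0 ≤ x) : 0 ≤ 1 - x ^ 2 / 2 + x ^ 4 / 24 - cos x := by
  refine sinb_mono (fun x => 1 - x ^ 2 / 2 + x ^ 4 / 24 - cos x)
    (fun x => sin x - (x - x ^ 3 / 6)) ?_ (by simp) sinb_s3 x hx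
  intro x
  have h := ((((hasDerivAt_const x (1 : ℝ)).sub ((hasDerivAt_pow 2 x).div_const 2)).add
    ((hasDerivAt_pow 4 x).div_const 24))).sub (hasDerivAt_cos x)
  refine h.congr_deriv ?_
  norm_num
  ring

theorem sinb_s5 (x : ℝ) (hx : 0 ≤ x) : 0 ≤ x - x ^ 3 / 6 + x ^ 5 / 120 - sin x := by
  refine sinb_mono (fun x => x - x ^ 3 / 6 + x ^ 5 / 120 - sin x)
    (fun x => 1 - x ^ 2 / 2 + x ^ 4 / 24 - cos x) ?_ (by simp) sinb_c4 x hx
  intro x
  have h := (((hasDerivAt_id' x).sub ((hasDerivAt_pow 3 x).div_const 6)).add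
    ((hasDerivAt_pow 5 x).div_const 120)).sub (hasDerivAt_sin x)
  refine h.congr_deriv ?_
  norm_num
  ring

theorem sinb_c6 (x : ℝ) (hx : 0 ≤ x) :
    0 ≤ cos x - (1 - x ^ 2 / 2 + x ^ 4 / 24 - x ^ 6 / 720) := by
  refine sinb_mono (fun x => cos x - (1 - x ^ 2 / 2 + x ^ 4 / 24 - x ^ 6 / 720))
    (fun x => x - x ^ 3 / 6 + x ^ 5 / 120 - sin x) ?_ (by simp) sinb_s5 x hx
  intro x
  have h := (hasDerivAt_cos x).sub ((((hasDerivAt_const x (1 : ℝ)).sub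
    ((hasDerivAt_pow 2 x).div_const 2)).add ((hasDerivAt_pow 4 x).div_const 24)).sub
    ((hasDerivAt_pow 6 x).div_const 720))
  refine h.congr_deriv ?_
  norm_num
  ring

theorem sinb_s7 (x : ℝ) (hx : 0 ≤ x) :
    0 ≤ sin x - (x - x ^ 3 / 6 + x ^ 5 / 120 - x ^ 7 / 5040) := by
  refine sinb_mono (fun x => sin x - (x - x ^ 3 / 6 + x ^ 5 / 120 - x ^ 7 / 5040))
    (fun x => cos x - (1 - x ^ 2 / 2 + x ^ 4 / 24 - x ^ 6 / 720)) ?_ (by simp) sinb_c6 x hx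
  intro x
  have h := (hasDerivAt_sin x).sub ((((hasDerivAt_id' x).sub
    ((hasDerivAt_pow 3 x).div_const 6)).add ((hasDerivAt_pow 5 x).div_const 120)).sub
    ((hasDerivAt_pow 7 x).div_const 5040))
  refine h.congr_deriv ?_
  norm_num
  ring

theorem sinb_c8 (x : ℝ) (hx : 0 ≤ x) :
    0 ≤ 1 - x ^ 2 / 2 + x ^ 4 / 24 - x ^ 6 / 720 + x ^ 8 / 40320 - cos x := by
  refine sinb_mono (fun x => 1 - x ^ 2 / 2 + x ^ 4 / 24 - x ^ 6 / 720 + x ^ 8 / 40320 - cos x)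
    (fun x => sin x - (x - x ^ 3 / 6 + x ^ 5 / 120 - x ^ 7 / 5040)) ?_ (by simp) sinb_s7 x hx
  intro x
  have h := (((((hasDerivAt_const x (1 : ℝ)).sub
    ((hasDerivAt_pow 2 x).div_const 2)).add ((hasDerivAt_pow 4 x).div_const 24)).sub
    ((hasDerivAt_pow 6 x).div_const 720)).add ((hasDerivAt_pow 8 x).div_const 40320)).sub
    (hasDerivAt_cos x)
  refine h.congr_deriv ?_
  norm_num
  ring

theorem sinb_s9 (x : ℝ) (hx : 0 ≤ x) :
    0 ≤ x - x ^ 3 / 6 + x ^ 5 / 120 - x ^ 7 / 5040 + x ^ 9 / 362880 - sin x := by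
  refine sinb_mono (fun x => x - x ^ 3 / 6 + x ^ 5 / 120 - x ^ 7 / 5040 + x ^ 9 / 362880 - sin x)
    (fun x => 1 - x ^ 2 / 2 + x ^ 4 / 24 - x ^ 6 / 720 + x ^ 8 / 40320 - cos x) ?_ (by simp)
    sinb_c8 x hx
  intro x
  have h := ((((((hasDerivAt_id' x).sub
    ((hasDerivAt_pow 3 x).div_const 6)).add ((hasDerivAt_pow 5 x).div_const 120)).sub
    ((hasDerivAt_pow 7 x).div_const 5040))).add ((hasDerivAt_pow 9 x).div_const 362880)).sub
    (hasDerivAt_sin x)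
  refine h.congr_deriv ?_
  norm_num
  ring

/-- lower bound for the arcsine -/
theorem sinb_lo (r X c x : ℝ) (hr : 0 ≤ r) (hr2 : r < 1 / 2) (hX : r * 3.141593 ≤ X)
    (hX2 : X ≤ 1.57) (h : X - X ^ 3 / 6 + X ^ 5 / 120 - X ^ 7 / 5040 + X ^ 9 / 362880 < c)
    (hx : c ≤ x) : r * π < arcsin x := by
  have hp := pi_lt_d6
  have hp2 := pi_gt_d6
  have h0 : 0 ≤ r * π := mul_nonneg hr pi_pos.le
  have h1 : r * π ≤ X := (mul_le_mul_of_nonneg_left hp.le hr).trans hX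
  have h2 : X ≤ π / 2 := by linarith
  have h3 : sin (r * π) ≤ sin X :=
    sin_le_sin_of_le_of_le_pi_div_two (by linarith) h2 h1
  have h4 := sinb_s9 X (h0.trans h1)
  rw [lt_arcsin_iff_sin_lt' ⟨by linarith, by nlinarith⟩]
  linarith

/-- upper bound for the arcsine -/
theorem sinb_up (r X c x : ℝ) (hr : 0 ≤ r) (hr2 : r ≤ 1 / 2) (hX : X ≤ r * 3.141592)
    (hX2 : 0 ≤ X) (h : c < X - X ^ 3 / 6 + X ^ 5 / 120 - X ^ 7 / 5040)
    (hx : x ≤ c) : arcsin x < r * π := by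
  have hp2 := pi_gt_d6
  have h0 : 0 ≤ r * π := mul_nonneg hr pi_pos.le
  have h1 : X ≤ r * π := hX.trans (mul_le_mul_of_nonneg_left hp2.le hr)
  have h2 : r * π ≤ π / 2 := by nlinarith
  have h3 : sin X ≤ sin (r * π) :=
    sin_le_sin_of_le_of_le_pi_div_two (by linarith) h2 h1
  have h4 := sinb_s7 X hX2
  rw [arcsin_lt_iff_lt_sin' ⟨by linarith, h2⟩]
  linarith

theorem sinb_half : arcsin (1 / 2) = π / 6 := by
  rw [← sin_pi_div_six, arcsin_sin (by linarith [pi_pos]) (by linarith [pi_pos])]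

/-- `x > 1 / 2` -/
theorem sinb_half_lt (x : ℝ) (hx : 1 / 2 < x) : π / 6 < arcsin x := by
  rw [lt_arcsin_iff_sin_lt' ⟨by linarith [pi_pos], by linarith [pi_pos]⟩, sin_pi_div_six]
  exact hx

theorem sinb_lt_half (x : ℝ) (hx : x < 1 / 2) : arcsin x < π / 6 := by
  rw [arcsin_lt_iff_lt_sin' ⟨by linarith [pi_pos], by linarith [pi_pos]⟩, sin_pi_div_six]
  exact hx

theorem sinb_pos (x : ℝ) (hx : 0 < x) : 0 < arcsin x := arcsin_pos.2 hx

theorem sinb_lt_one (x : ℝ) (hx : x < 1) : arcsin x < π / 2 := arcsin_lt_pi_div_two.2 hx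

end RTwo
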